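import Pool.Agent.helper88.RQ2.Spec

/-!
Row rq:FIN of project RQ (MP_bb0bb6_co, question Q2): the final step. The left side of the
equivalence is `ci S = radonMin d s` (helper6's exact minimum), the right side is FEX.
-/

set_option autoImplicit false

open Set Matroid RadonMin

namespace RadonQ2

theorem FIN_proof (hFEX : FEX_stmt) : FIN_stmt := by
  classical
  intro d S hd hs
  have hra : ra S ≤ d + 1 := by
    have h := rk_affMat_le S
    rw [finrank_euclideanSpace_fin] at h
    exact h
  rw [← hFEX (EuclideanSpace ℝ (Fin d)) d S hd hra hs]
  unfold ci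
  constructor
  · intro hmin
    obtain ⟨S', hS', hc⟩ := (exists_min d S.card hd hs).hasSet
    have h1 := hmin S' hS'
    rw [ncard_primitive_eq, ncard_primitive_eq] at h1
    exact le_antisymm (h1.trans hc) (radonMin_le_cc S d finrank_euclideanSpace_fin hd hs)
  · intro heq S' hS'
    rw [ncard_primitive_eq, ncard_primitive_eq, heq, ← hS']
    exact radonMin_le_cc S' d finrank_euclideanSpace_fin hd (by rw [hS']; exact hs)

end RadonQ2
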